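import Mathlib
import Pool.Agent.H755R4.Fin2

/-!
The Fermat-Catalan equation for one hundred per cent of the pairs of bases in every short or
unbalanced box.

Let `K` and `ε > 0` be given. In every box `(a, a + X] × (b, b + Y]` with both sides at least
`L(K, ε)` and with `a, b ≤ max (X, Y) ^ K` all coprime pairs `(u, v)` except for at most `ε X Y` have
the following property: none of the numbers `u ^ m + v ^ n`, `v ^ n - u ^ m`, `u ^ m - v ^ n` with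
`m, n ≥ 1` is a perfect power `c ^ k`, `k ≥ 2`, `c ≥ 1`. The exponents and the third base are
completely free.
-/

namespace Pool.Agent.Results.MP_509488_nt.AllBoxes

theorem result : ∀ (K : ℕ) (ε : ℝ), 0 < ε → ∃ L : ℕ, ∀ X Y : ℕ, L ≤ X → L ≤ Y → ∀ a b : ℕ,
    a ≤ (max X Y) ^ K → b ≤ (max X Y) ^ K →
      (({p : ℕ × ℕ | p ∈ Set.Ioc a (a + X) ×ˢ Set.Ioc b (b + Y) ∧ Nat.Coprime p.1 p.2 ∧
        ∃ m n k c : ℕ, 0 < m ∧ 0 < n ∧ 2 ≤ k ∧ 0 < c ∧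
          (p.1 ^ m + p.2 ^ n = c ^ k ∨ p.1 ^ m + c ^ k = p.2 ^ n ∨
            p.2 ^ n + c ^ k = p.1 ^ m)}.ncard : ℕ) : ℝ) ≤ ε * (X * Y) := by
  intro K ε hε
  obtain ⟨L, hL⟩ := Pool.Agent.H755R4.boxes2 K hε
  refine ⟨L, fun X Y hX hY a b ha hb => le_trans ?_ (hL X Y hX hY a b ha hb)⟩
  have hsub : {p : ℕ × ℕ | p ∈ Set.Ioc a (a + X) ×ˢ Set.Ioc b (b + Y) ∧ Nat.Coprime p.1 p.2 ∧
        ∃ m n k c : ℕ, 0 < m ∧ 0 < n ∧ 2 ≤ k ∧ 0 < c ∧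
          (p.1 ^ m + p.2 ^ n = c ^ k ∨ p.1 ^ m + c ^ k = p.2 ^ n ∨
            p.2 ^ n + c ^ k = p.1 ^ m)} ⊆
      Pool.Agent.H755R4.Exc2 ∩ (Set.Ioc a (a + X) ×ˢ Set.Ioc b (b + Y)) := by
    rintro ⟨u, v⟩ ⟨hbox, hco, x, y, z, w, hx, hy, hz, hw, h⟩
    refine ⟨⟨?_, ?_, hco, x, y, z, w, hx, hy, hz, hw, h⟩, hbox⟩
    · exact lt_of_le_of_lt (Nat.zero_le _) hbox.1.1
    · exact lt_of_le_of_lt (Nat.zero_le _) hbox.2.1
  exact_mod_cast Set.ncard_le_ncard hsub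
    ((Pool.Agent.H374R2.Beal.box_finite a b X Y).subset Set.inter_subset_right)

end Pool.Agent.Results.MP_509488_nt.AllBoxes
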