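import Mathlib
import Pool.Agent.H755R4.Fin

/-!
Generalised Fermat equation with one large exponent, each single base `A` and almost all bases `B`
of a short interval.

Let `K` and `ε > 0` be given. There are `Z₀` and `L` such that every interval `(b, b + Y]` with
`Y ≥ L`, `b ≤ Y ^ K` has a set `T` of at most `ε Y` elements such that for every positive
`A ≤ Y ^ K`, at most `Y ^ ε` of the integers `B` of the interval outside `T` are coprime to `A` and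
such that one of the numbers `A ^ x + B ^ y`, `|A ^ x - B ^ y|` with `x, y ≥ 1` is a positive
`z`-th power with `z ≥ Z₀`.
-/

namespace Pool.Agent.Results.MP_509488_nt.EachBase

theorem result : ∀ (K : ℕ) (ε : ℝ), 0 < ε → ∃ Z₀ L : ℕ, ∀ Y b : ℕ, L ≤ Y → b ≤ Y ^ K →
    ∃ T : Set ℕ, T ⊆ Set.Ioc b (b + Y) ∧ (T.ncard : ℝ) ≤ ε * Y ∧ ∀ A : ℕ, 0 < A → A ≤ Y ^ K →
      (({B : ℕ | B ∈ Set.Ioc b (b + Y) ∧ B ∉ T ∧ Nat.Coprime A B ∧
        ∃ x y z C : ℕ, 0 < x ∧ 0 < y ∧ Z₀ ≤ z ∧ 0 < C ∧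
          (A ^ x + B ^ y = C ^ z ∨ A ^ x + C ^ z = B ^ y ∨ B ^ y + C ^ z = A ^ x)}.ncard : ℕ) : ℝ) ≤
        (Y : ℝ) ^ ε := by
  intro K ε hε
  obtain ⟨Z₀, L, hL⟩ := Pool.Agent.H755R4.core (K + 2) (by omega)
    (show 0 < min ε (1 / 2) by positivity)
    (lt_of_le_of_lt (min_le_right _ _) (by norm_num))
  refine ⟨Z₀, max L 2, fun Y b hY hb => ?_⟩
  have hLY : L ≤ Y := (le_max_left _ _).trans hY
  have hY2 : 2 ≤ Y := (le_max_right _ _).trans hY
  have hNK : Y ^ K + Y ≤ Y ^ (K + 2) := by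
    have h1 : Y ^ K ≤ Y ^ (K + 1) := Nat.pow_le_pow_right (by omega) (by omega)
    have h2 : Y ≤ Y ^ (K + 1) := Nat.le_self_pow (by omega) Y
    have h3 : Y ^ (K + 2) = Y ^ (K + 1) * Y := pow_succ _ _
    calc Y ^ K + Y ≤ Y ^ (K + 1) * 2 := by omega
      _ ≤ Y ^ (K + 1) * Y := Nat.mul_le_mul_left _ hY2
      _ = _ := h3.symm
  obtain ⟨T, hTsub, hTc, hT⟩ := hL (Y ^ K + Y) Y b hLY (by omega) hNK
  have hYR : (0 : ℝ) ≤ Y := Nat.cast_nonneg Y
  have hY1 : (1 : ℝ) ≤ Y := by exact_mod_cast (by omega : 1 ≤ Y)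
  refine ⟨T, hTsub, hTc.trans (mul_le_mul_of_nonneg_right (min_le_left _ _) hYR),
    fun A hA hAY => (hT A hA (by omega)).trans
      (Real.rpow_le_rpow_of_exponent_le hY1 (min_le_left _ _))⟩

end Pool.Agent.Results.MP_509488_nt.EachBase
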